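import Pool.Agent.Lib.MP_4dc748_co.RS.Iface
import Pool.Agent.Lib.MP_4dc748_co.TE.Fam

/-!
# From LineBound on RS.F4 to the families on TE.F4
-/

set_option autoImplicit false

namespace Pool.Agent.Lib.MP_4dc748_co.BR

open Pool.Agent.Lib.MP_4dc748_co.TA

/-- The isomorphism of the two models of the field with four elements. -/
def E : RS.F4 ≃+* TE.F4 where
  toFun := fun x => match x with
    | RS.F4.o => TE.F4.o
    | RS.F4.i => TE.F4.i
    | RS.F4.w => TE.F4.w
    | RS.F4.v => TE.F4.z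
  invFun := fun x => match x with
    | TE.F4.o => RS.F4.o
    | TE.F4.i => RS.F4.i
    | TE.F4.w => RS.F4.w
    | TE.F4.z => RS.F4.v
  left_inv := by intro x; cases x <;> rfl
  right_inv := by intro x; cases x <;> rfl
  map_mul' := by decide
  map_add' := by decide

theorem E_frob : ∀ x, E (RS.F4.frob x) = TE.F4.frob (E x) := by
  decide

/-- The numbering of the classes. -/
def sg : Fin 21 → Fin 21 := ![5, 1, 9, 13, 17, 0, 6, 2, 10, 14, 18, 7, 3, 11, 15, 19, 8, 4, 12, 16, 20]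

/-- The inverse numbering. -/
def sgi : Fin 21 → Fin 21 := ![5, 1, 7, 12, 17, 0, 6, 11, 16, 2, 8, 13, 18, 3, 9, 14, 19, 4, 10, 15, 20]

theorem sg_sgi : ∀ x, sg (sgi x) = x := by decide

theorem sgi_sg : ∀ x, sgi (sg x) = x := by decide

theorem E_vec : ∀ (x : Fin 21) (r : Fin 3), E (RS.vec (sg x) r) = TE.PT x r := by
  decide +kernel

/-- The vectors of F4^3 in the other model. -/
def EV (v : Fin 3 → RS.F4) : Fin 3 → TE.F4 := fun r => E (v r)

theorem EV_inj {v v' : Fin 3 → RS.F4} (h : EV v = EV v') : v = v' :=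
  funext fun r => E.injective (congrFun h r)

theorem EV_symm (v : Fin 3 → TE.F4) : ∃ v', EV v' = v :=
  ⟨fun r => E.symm (v r), funext fun r => E.apply_symm_apply (v r)⟩

theorem EV_smul (c : RS.F4) (v : Fin 3 → RS.F4) : EV (c • v) = E c • EV v :=
  funext fun r => by simp [EV]

theorem EV_add (v v' : Fin 3 → RS.F4) : EV (v + v') = EV v + EV v' :=
  funext fun r => by simp [EV]

theorem EV_zero : EV 0 = 0 :=
  funext fun r => by simp [EV]

theorem EV_dot (a b : Fin 3 → RS.F4) : EV a ⬝ᵥ EV b = E (a ⬝ᵥ b) := by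
  simp [dotProduct, EV]

theorem EV_frob (v : Fin 3 → RS.F4) : TE.F4.frob ∘ EV v = EV (RS.F4.frob ∘ v) :=
  funext fun r => (E_frob (v r)).symm

theorem EV_inc (a c v b : Fin 3 → RS.F4) :
    Inc TE.F4.frob (EV a) (EV c) (EV v) (EV b) ↔ Inc RS.F4.frob a c v b := by
  unfold Inc
  rw [EV_frob, EV_dot, EV_dot, EV_dot, ← map_add]
  constructor
  · rintro ⟨h1, h2⟩
    exact ⟨(map_eq_zero_iff E E.injective).1 h1, (map_eq_zero_iff E E.injective).1 h2⟩
  · rintro ⟨h1, h2⟩
    rw [h1, h2]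
    exact ⟨map_zero _, map_zero _⟩

/-- The line (e a, e c) is the line (a, c). -/
theorem inc_smul {e : RS.F4} (he : e ≠ 0) (a c v b : Fin 3 → RS.F4) :
    Inc RS.F4.frob (e • a) (e • c) v b ↔ Inc RS.F4.frob a c v b := by
  unfold Inc
  rw [smul_dotProduct, smul_dotProduct, smul_dotProduct, ← smul_add, smul_eq_zero_iff_right he,
    smul_eq_zero_iff_right he]

open scoped Classical in
/-- From a family of subsets K of the 21 classes to a family of points on the other model. -/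
theorem US_of_RS (K : Fin 21 → Finset (RS.F4 × RS.F4)) (h : RS.LineBound RS.F4.frob 7 K)
    (h99 : ∑ p, (K p).card = 99) : TE.US (fun x => (K (sg x)).card) := by
  refine ⟨{q : (_ : Fin 21) × (RS.F4 × RS.F4) // q ∈ Finset.univ.sigma K}, Finset.Subtype.fintype _,
    fun q => EV (RS.vec q.1.1), fun q => EV (RS.bpt q.1.1 q.1.2), ⟨?_, ?_, ?_⟩, ?_, ?_⟩
  · intro q hq
    rw [← EV_zero] at hq
    exact RS.vec_ne_zero _ (EV_inj hq)
  · rintro q q' hne c d ⟨h1, h2⟩
    obtain ⟨c', rfl⟩ : ∃ c', E c' = c := ⟨E.symm c, E.apply_symm_apply c⟩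
    obtain ⟨d', rfl⟩ : ∃ d', E d' = d := ⟨E.symm d, E.apply_symm_apply d⟩
    rw [← EV_smul] at h1
    obtain ⟨h3, h4⟩ := RS.class_inj (EV_inj h1)
    subst h4
    rw [map_one, map_one, one_smul, ← EV_smul, ← EV_add] at h2
    have h5 := EV_inj h2
    apply hne
    obtain ⟨⟨x, t⟩, hq⟩ := q
    obtain ⟨⟨x', t'⟩, hq'⟩ := q'
    simp only at h3 h5
    subst h3
    have h6 := RS.bpt_inj h5
    subst h6
    rfl
  · intro a c ha
    obtain ⟨a', rfl⟩ := EV_symm a
    obtain ⟨c', rfl⟩ := EV_symm c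
    have ha' : a' ≠ 0 := by
      rintro rfl
      exact ha EV_zero
    obtain ⟨l, e, he, rfl⟩ := RS.exists_class ha'
    obtain ⟨c'', rfl⟩ : ∃ c'', e • c'' = c' := ⟨e⁻¹ • c', by rw [smul_smul, mul_inv_cancel₀ he, one_smul]⟩
    refine le_trans ?_ (h l c'')
    rw [← RS.card_filter_inc]
    refine Finset.card_le_card_of_injOn (fun q => q.1) ?_ (fun q _ q' _ hqq => Subtype.ext hqq)
    intro q hq
    have h1 := (Finset.mem_filter.1 (Finset.mem_coe.1 hq)).2
    rw [EV_inc, inc_smul he] at h1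
    exact Finset.mem_coe.2 (Finset.mem_filter.2 ⟨q.2, h1⟩)
  · rw [Fintype.card_coe, Finset.card_sigma]
    exact h99
  · intro x
    have h1 : ∀ q : {q : (_ : Fin 21) × (RS.F4 × RS.F4) // q ∈ Finset.univ.sigma K},
        (∃ e : TE.F4, EV (RS.vec q.1.1) = e • TE.PT x) ↔ q.1.1 = sg x := by
      intro q
      have hP : TE.PT x = EV (RS.vec (sg x)) := funext fun r => (E_vec x r).symm
      constructor
      · rintro ⟨e, he⟩
        obtain ⟨e', rfl⟩ : ∃ e', E e' = e := ⟨E.symm e, E.apply_symm_apply e⟩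
        rw [hP, ← EV_smul] at he
        exact (RS.class_inj (EV_inj he)).1
      · intro hq
        exact ⟨1, by rw [one_smul, hP, hq]⟩
    simp only [h1]
    refine Finset.card_bij' (fun q _ => q.1.2) (fun t ht => ⟨⟨sg x, t⟩, ?_⟩) ?_ ?_ ?_ ?_
    · exact Finset.mem_sigma.2 ⟨Finset.mem_univ _, ht⟩
    · rintro ⟨⟨y, t⟩, hq⟩ hy
      have hy' : y = sg x := (Finset.mem_filter.1 hy).2
      subst hy'
      exact (Finset.mem_sigma.1 hq).2
    · intro t ht
      exact Finset.mem_filter.2 ⟨Finset.mem_univ _, rfl⟩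
    · rintro ⟨⟨y, t⟩, hq⟩ hy
      have hy' : y = sg x := (Finset.mem_filter.1 hy).2
      subst hy'
      rfl
    · intro t ht
      rfl

end Pool.Agent.Lib.MP_4dc748_co.BR
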